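import Pool.Agent.PFD.StmtsD4

set_option autoImplicit false

/-!
# Squad PFD, row CNR: ranks of centres, special fibre
-/

noncomputable section

namespace Pool.Agent.PFD.D4.H68

open Pool.Agent.PFC.B1 (BiM FS Sep Split)
open Pool.Agent.PFD.D2
open Pool.Agent.PFD.D2b
open Pool.Agent.PFD.D4

theorem q_smul {R F A A1 : Type} [CommRing R] [Field F] {c : Cdv R F} [Ring A] [Algebra F A]
    [Ring A1] [Algebra R A1] (fb : FibG A1 A c) (r : R) (x : A1) :
    fb.q (r • x) = c.κ r • fb.q x := by
  rw [Algebra.smul_def, map_mul, fb.sc, Algebra.smul_def]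

/-- ROW CNR. -/
theorem cnr : CnrStmt := by
  intro R F A A1 _ _ _ _ c _ _ _ _ _ _ fb hlift
  have hπ : c.π ≠ 0 := by
    intro h
    exact one_ne_zero (c.reg 1 (by rw [h, zero_mul]))
  have hfin : Module.Finite R (Subalgebra.center R A1) :=
    inferInstanceAs (Module.Finite R (Subalgebra.toSubmodule (Subalgebra.center R A1)))
  have hfree : Module.Free R (Subalgebra.center R A1) :=
    inferInstanceAs (Module.Free R (Subalgebra.toSubmodule (Subalgebra.center R A1)))
  let b := Module.finBasis R (Subalgebra.center R A1)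
  have hcen : ∀ x : Subalgebra.center R A1, fb.q (x : A1) ∈ Subalgebra.center F A := by
    intro x
    rw [Subalgebra.mem_center_iff]
    intro a
    obtain ⟨a1, rfl⟩ := fb.surj a
    rw [← map_mul, ← map_mul]
    exact congrArg fb.q (Subalgebra.mem_center_iff.1 x.2 a1)
  let v : Fin (Module.finrank R (Subalgebra.center R A1)) → Subalgebra.center F A :=
    fun i => ⟨fb.q (b i : A1), hcen (b i)⟩
  have hq : ∀ r : Fin (Module.finrank R (Subalgebra.center R A1)) → R,
      fb.q ((∑ i, r i • b i : Subalgebra.center R A1) : A1) =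
        ((∑ i, c.κ (r i) • v i : Subalgebra.center F A) : A) := by
    intro r
    rw [AddSubmonoidClass.coe_finsetSum, AddSubmonoidClass.coe_finsetSum, map_sum]
    refine Finset.sum_congr rfl fun i _ => ?_
    exact q_smul fb (r i) (b i : A1)
  have hli : LinearIndependent F v := by
    rw [Fintype.linearIndependent_iff]
    intro g hg
    choose r hr using fun i => c.surj (g i)
    have h1 : fb.q ((∑ i, r i • b i : Subalgebra.center R A1) : A1) = 0 := by
      rw [hq]
      have : (∑ i, c.κ (r i) • v i) = 0 := by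
        rw [← hg]
        exact Finset.sum_congr rfl fun i _ => by rw [hr i]
      rw [this]
      rfl
    obtain ⟨y, hy⟩ := fb.ker _ h1
    have hyc : y ∈ Subalgebra.center R A1 := by
      rw [Subalgebra.mem_center_iff]
      intro a
      have h2 := Subalgebra.mem_center_iff.1 (∑ i, r i • b i : Subalgebra.center R A1).2 a
      rw [hy, mul_smul_comm, smul_mul_assoc] at h2
      exact smul_right_injective A1 hπ h2
    have h3 : (∑ i, r i • b i : Subalgebra.center R A1) = c.π • ⟨y, hyc⟩ := Subtype.ext hy
    intro i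
    have h4 : b.repr (∑ i, r i • b i) i = r i := by
      have := b.repr_sum_self r
      exact congrFun this i
    rw [h3, map_smul] at h4
    rw [← hr i]
    refine (c.ker (r i)).2 ⟨b.repr ⟨y, hyc⟩ i, ?_⟩
    rw [← h4]
    rfl
  have hsp : ⊤ ≤ Submodule.span F (Set.range v) := by
    rintro ⟨z, hz⟩ -
    obtain ⟨z1, hz1, rfl⟩ := hlift z (fun a => (Subalgebra.mem_center_iff.1 hz a).symm)
    have hz1c : z1 ∈ Subalgebra.center R A1 :=
      Subalgebra.mem_center_iff.2 fun a => (hz1 a).symm
    have h5 := b.sum_repr ⟨z1, hz1c⟩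
    have h6 : (⟨fb.q z1, hz⟩ : Subalgebra.center F A) =
        ∑ i, c.κ (b.repr ⟨z1, hz1c⟩ i) • v i := by
      apply Subtype.ext
      rw [← hq, h5]
    rw [h6]
    exact Submodule.sum_mem _ fun i _ => Submodule.smul_mem _ _ (Submodule.subset_span ⟨i, rfl⟩)
  have hb := Module.Basis.mk hli hsp
  rw [Module.finrank_eq_card_basis hb, Fintype.card_fin]

end Pool.Agent.PFD.D4.H68
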